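import Mathlib

/-!
The growth function of an `ℕ`-weighted tree automaton with exponential growth has an exact
exponential growth rate.
-/

set_option linter.unusedSectionVars false

namespace Pool.Agent.Results.MP_7772c6_lc.GrowthRate

open Finset Filter Topology

/-- Finite trees over a ranked alphabet. -/
inductive Tree (A : Type) (ar : A → ℕ) : Type
  | node (a : A) (ts : Fin (ar a) → Tree A ar) : Tree A ar

variable {A : Type} {ar : A → ℕ}

/-- The number of nodes. -/
def Tree.size : Tree A ar → ℕ
  | .node _ ts => 1 + ∑ i, (ts i).size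

/-- A weighted tree automaton with set of states `Q`. -/
structure Aut (A : Type) (ar : A → ℕ) (Q : Type) where
  /-- the weights of the transitions -/
  mu : (a : A) → (Fin (ar a) → Q) → Q → ℕ
  /-- the final weights -/
  lam : Q → ℕ

variable {Q : Type}

/-- A run assigns a state to every node of the tree. -/
def Run (Q : Type) : Tree A ar → Type
  | .node _ ts => Q × (∀ i, Run Q (ts i))

/-- The state of the root in a run. -/
def rootState : (t : Tree A ar) → Run Q t → Q
  | .node _ _, r => r.1

/-- The product of the weights of the transitions of a run. -/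
def weight (M : Aut A ar Q) : (t : Tree A ar) → Run Q t → ℕ
  | .node a ts, r => M.mu a (fun i => rootState (ts i) (r.2 i)) r.1 *
      ∏ i, weight M (ts i) (r.2 i)

/-- There are finitely many runs. -/
instance runFintype [Fintype Q] : (t : Tree A ar) → Fintype (Run Q t)
  | .node _ ts =>
    have : ∀ i, Fintype (Run Q (ts i)) := fun i => runFintype (ts i)
    inferInstanceAs (Fintype (Q × (∀ i, Run Q (ts i))))

/-- The value of a tree: the sum of the weights of all runs. -/
def value [Fintype Q] (M : Aut A ar Q) (t : Tree A ar) : ℕ :=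
  ∑ r : Run Q t, weight M t r * M.lam (rootState t r)

/-- The growth function `n ↦ max_{|t| ≤ n} f(t)`. -/
noncomputable def growth (f : Tree A ar → ℕ) (n : ℕ) : ℕ := sSup {m | ∃ t : Tree A ar, t.size ≤ n ∧ f t = m}

/-- The sum of the weights of the runs with a given root state. -/
def val [Fintype Q] (M : Aut A ar Q) : Tree A ar → Q → ℕ
  | .node a ts, q => ∑ qs : Fin (ar a) → Q, M.mu a qs q * ∏ i, val M (ts i) (qs i)

section

variable [Fintype Q] [DecidableEq Q] (M : Aut A ar Q)

lemma val_eq (t : Tree A ar) : ∀ g : Q → ℕ, ∑ r : Run Q t, weight M t r * g (rootState t r) =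
    ∑ q, val M t q * g q := by
  induction t with
  | node a ts ih =>
    intro g
    have h1 : ∀ (i : Fin (ar a)) (p : Q), val M (ts i) p =
        ∑ r : Run Q (ts i), weight M (ts i) r * (if rootState (ts i) r = p then 1 else 0) := by
      intro i p
      rw [ih i (fun q => if q = p then 1 else 0)]
      simp
    have h2 : ∀ q : Q, val M (.node a ts) q = ∑ ρ : (∀ i, Run Q (ts i)),
        M.mu a (fun i => rootState (ts i) (ρ i)) q * ∏ i, weight M (ts i) (ρ i) := by
      intro q
      have h3 : ∀ qs : Fin (ar a) → Q, ∏ i, val M (ts i) (qs i) = ∑ ρ : (∀ i, Run Q (ts i)),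
          (∏ i, weight M (ts i) (ρ i)) *
            (if (fun i => rootState (ts i) (ρ i)) = qs then 1 else 0) := by
        intro qs
        have h4 : ∀ i, val M (ts i) (qs i) = ∑ r ∈ (univ : Finset (Run Q (ts i))),
            weight M (ts i) r * (if rootState (ts i) r = qs i then 1 else 0) := fun i => h1 i (qs i)
        rw [Finset.prod_congr rfl (fun i _ => h4 i), Finset.prod_univ_sum, Fintype.piFinset_univ]
        refine Finset.sum_congr rfl fun ρ _ => ?_
        rw [Finset.prod_mul_distrib]
        congr 1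
        by_cases h : (fun i => rootState (ts i) (ρ i)) = qs
        · rw [if_pos h]
          exact Finset.prod_eq_one fun i _ => if_pos (congrFun h i)
        · rw [if_neg h]
          obtain ⟨i, hi⟩ := Function.ne_iff.1 h
          exact Finset.prod_eq_zero (Finset.mem_univ i) (if_neg hi)
      simp only [val, h3, Finset.mul_sum]
      rw [Finset.sum_comm]
      refine Finset.sum_congr rfl fun ρ _ => ?_
      rw [Finset.sum_eq_single (fun i => rootState (ts i) (ρ i))]
      · simp
      · intro qs _ h
        rw [if_neg (Ne.symm h)]; simp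
      · intro h; exact absurd (Finset.mem_univ _) h
    have h5 : ∑ r : Run Q (.node a ts), weight M (.node a ts) r * g (rootState (.node a ts) r) =
        ∑ r : Q × (∀ i, Run Q (ts i)), (M.mu a (fun i => rootState (ts i) (r.2 i)) r.1 *
          ∏ i, weight M (ts i) (r.2 i)) * g r.1 := rfl
    rw [h5, Fintype.sum_prod_type]
    refine Finset.sum_congr rfl fun q _ => ?_
    rw [h2, Finset.sum_mul]

/-- A node with a hole as its `i`-th child (the tree `ts i` is irrelevant). -/
structure Frame (A : Type) (ar : A → ℕ) where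
  /-- the label -/
  a : A
  /-- the position of the hole -/
  i : Fin (ar a)
  /-- the other subtrees -/
  ts : Fin (ar a) → Tree A ar

/-- Plug a tree into the hole of a frame. -/
def Frame.plug (F : Frame A ar) (t : Tree A ar) : Tree A ar :=
  .node F.a (Function.update F.ts F.i t)

/-- The number of nodes of a frame, without the hole. -/
def Frame.size (F : Frame A ar) : ℕ := 1 + ∑ j ∈ univ.erase F.i, (F.ts j).size

/-- The transition matrix of a frame. -/
def Frame.mat (F : Frame A ar) : Matrix Q Q ℕ := fun p q =>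
  ∑ qs : Fin (ar F.a) → Q, if qs F.i = p then
    M.mu F.a qs q * ∏ j ∈ univ.erase F.i, val M (F.ts j) (qs j) else 0

lemma size_plug (F : Frame A ar) (t : Tree A ar) : (F.plug t).size = F.size + t.size := by
  simp only [Frame.plug, Tree.size, Frame.size]
  rw [← Finset.add_sum_erase univ _ (Finset.mem_univ F.i), Function.update_self]
  have : ∑ j ∈ univ.erase F.i, (Function.update F.ts F.i t j).size =
      ∑ j ∈ univ.erase F.i, (F.ts j).size := by
    refine Finset.sum_congr rfl fun j hj => ?_
    rw [Function.update_of_ne (Finset.ne_of_mem_erase hj)]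
  rw [this]; ring

lemma val_plug (F : Frame A ar) (t : Tree A ar) (q : Q) :
    val M (F.plug t) q = ∑ p, F.mat M p q * val M t p := by
  simp only [Frame.plug, val, Frame.mat, Finset.sum_mul]
  rw [Finset.sum_comm]
  refine Finset.sum_congr rfl fun qs _ => ?_
  rw [Finset.sum_eq_single (qs F.i)]
  · rw [if_pos rfl, ← Finset.mul_prod_erase univ _ (Finset.mem_univ F.i), Function.update_self]
    have : ∏ j ∈ univ.erase F.i, val M (Function.update F.ts F.i t j) (qs j) =
        ∏ j ∈ univ.erase F.i, val M (F.ts j) (qs j) := by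
      refine Finset.prod_congr rfl fun j hj => ?_
      rw [Function.update_of_ne (Finset.ne_of_mem_erase hj)]
    rw [this]; ring
  · intro p _ hp
    rw [if_neg (Ne.symm hp), Nat.zero_mul]
  · intro h; exact absurd (Finset.mem_univ _) h

/-- Plug a tree into a context, i.e. a list of frames, the outermost frame first. -/
def plugL : List (Frame A ar) → Tree A ar → Tree A ar
  | [], t => t
  | F :: l, t => F.plug (plugL l t)

/-- The number of nodes of a context. -/
def sizeL : List (Frame A ar) → ℕ
  | [] => 0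
  | F :: l => F.size + sizeL l

/-- The transition matrix of a context. -/
def matL : List (Frame A ar) → Matrix Q Q ℕ
  | [] => 1
  | F :: l => matL l * F.mat M

lemma size_plugL (l : List (Frame A ar)) (t : Tree A ar) :
    (plugL l t).size = sizeL l + t.size := by
  induction l with
  | nil => simp [plugL, sizeL]
  | cons F l ih => rw [plugL, size_plug, ih, sizeL, Nat.add_assoc]

lemma val_plugL (l : List (Frame A ar)) (t : Tree A ar) (q : Q) :
    val M (plugL l t) q = ∑ p, matL M l p q * val M t p := by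
  induction l generalizing q with
  | nil => simp [plugL, matL, Matrix.one_apply]
  | cons F l ih =>
    rw [plugL, val_plug]
    simp only [ih, matL, Matrix.mul_apply, Finset.mul_sum, Finset.sum_mul]
    rw [Finset.sum_comm]
    refine Finset.sum_congr rfl fun p _ => Finset.sum_congr rfl fun r _ => ?_
    ring

lemma sizeL_append (l l' : List (Frame A ar)) : sizeL (l ++ l') = sizeL l + sizeL l' := by
  induction l with
  | nil => simp [sizeL]
  | cons F l ih => rw [List.cons_append, sizeL, ih, sizeL, Nat.add_assoc]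

lemma matL_append (l l' : List (Frame A ar)) : matL M (l ++ l') = matL M l' * matL M l := by
  induction l with
  | nil => simp [matL]
  | cons F l ih => rw [List.cons_append, matL, ih, matL, Matrix.mul_assoc]

/-- `q` is reachable from `p`. -/
def Reach (p q : Q) : Prop := ∃ l : List (Frame A ar), 0 < matL M l p q

lemma matL_append_ge (l l' : List (Frame A ar)) (p q r : Q) :
    matL M l' p q * matL M l q r ≤ matL M (l ++ l') p r := by
  rw [matL_append, Matrix.mul_apply]
  exact Finset.single_le_sum (f := fun j => matL M l' p j * matL M l j r)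
    (fun _ _ => Nat.zero_le _) (Finset.mem_univ q)

lemma Reach.refl (p : Q) : Reach M p p := ⟨[], by simp [matL]⟩

lemma Reach.trans {p q r : Q} (h1 : Reach M p q) (h2 : Reach M q r) : Reach M p r := by
  obtain ⟨l1, h1⟩ := h1
  obtain ⟨l2, h2⟩ := h2
  exact ⟨l2 ++ l1, lt_of_lt_of_le (Nat.mul_pos h1 h2) (matL_append_ge M l2 l1 p q r)⟩

lemma reach_child {a : A} {ts : Fin (ar a) → Tree A ar} {qs : Fin (ar a) → Q} {q : Q}
    (h : 0 < M.mu a qs q * ∏ i, val M (ts i) (qs i)) (k : Fin (ar a)) : Reach M (qs k) q := by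
  refine ⟨[⟨a, k, ts⟩], ?_⟩
  simp only [matL, Matrix.one_mul, Frame.mat]
  refine lt_of_lt_of_le ?_ (Finset.single_le_sum (fun _ _ => Nat.zero_le _) (Finset.mem_univ qs))
  rw [if_pos rfl]
  rw [← Finset.mul_prod_erase univ _ (Finset.mem_univ k)] at h
  refine Nat.pos_of_ne_zero fun h0 => ?_
  rw [Nat.mul_left_comm, h0, Nat.mul_zero] at h
  exact lt_irrefl _ h

/-- `p` is the root state of a run of positive weight. -/
def Acc (p : Q) : Prop := ∃ t : Tree A ar, 0 < val M t p

/-- `p` can reach a state of positive final weight. -/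
def Coacc (p : Q) : Prop := ∃ q, 0 < M.lam q ∧ Reach M p q

/-- The number of states below a state. -/
noncomputable def rk (q : Q) : ℕ := by
  classical exact (univ.filter fun p => Reach M p q).card

lemma rk_lt {p q : Q} (h1 : Reach M p q) (h2 : ¬ Reach M q p) : rk M p < rk M q := by
  classical
  unfold rk
  apply Finset.card_lt_card
  rw [Finset.ssubset_iff_of_subset]
  · exact ⟨q, by simp [Reach.refl], by simpa using h2⟩
  · intro r hr
    simp only [Finset.mem_filter, Finset.mem_univ, true_and] at hr ⊢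
    exact hr.trans M h1

/-- One step of the path decomposition. -/
lemma step_bound (S : Finset Q) (a : A) (ts : Fin (ar a) → Tree A ar) (p : Q) :
    val M (.node a ts) p ≤ (∑ qs : Fin (ar a) → Q, if ∀ k, qs k ∉ S then
      M.mu a qs p * ∏ i, val M (ts i) (qs i) else 0) +
      ∑ i, ∑ p' ∈ S, Frame.mat M ⟨a, i, ts⟩ p' p * val M (ts i) p' := by
  have h1 : ∀ (i : Fin (ar a)) (p' : Q), Frame.mat M ⟨a, i, ts⟩ p' p * val M (ts i) p' =
      ∑ qs : Fin (ar a) → Q, if qs i = p' then M.mu a qs p * ∏ i, val M (ts i) (qs i) else 0 := by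
    intro i p'
    simp only [Frame.mat, Finset.sum_mul]
    refine Finset.sum_congr rfl fun qs _ => ?_
    by_cases h : qs i = p'
    · rw [if_pos h, if_pos h, ← Finset.mul_prod_erase univ _ (Finset.mem_univ i), h]; ring
    · rw [if_neg h, if_neg h, Nat.zero_mul]
  simp only [h1]
  have h2 : ∀ i : Fin (ar a), (∑ p' ∈ S, ∑ qs : Fin (ar a) → Q,
      if qs i = p' then M.mu a qs p * ∏ i, val M (ts i) (qs i) else 0) =
      ∑ qs : Fin (ar a) → Q, if qs i ∈ S then M.mu a qs p * ∏ i, val M (ts i) (qs i) else 0 := by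
    intro i
    rw [Finset.sum_comm]
    refine Finset.sum_congr rfl fun qs _ => ?_
    rw [Finset.sum_ite_eq]
  simp only [h2]
  rw [Finset.sum_comm, ← Finset.sum_add_distrib]
  simp only [val]
  refine Finset.sum_le_sum fun qs _ => ?_
  by_cases h : ∀ k, qs k ∉ S
  · rw [if_pos h]; exact Nat.le_add_right _ _
  · rw [if_neg h, Nat.zero_add]
    push Not at h
    obtain ⟨k, hk⟩ := h
    refine le_trans ?_ (Finset.single_le_sum (f := fun i => if qs i ∈ S then
      M.mu a qs p * ∏ i, val M (ts i) (qs i) else 0) (fun _ _ => Nat.zero_le _)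
      (Finset.mem_univ k))
    rw [if_pos hk]

lemma Coacc.of_reach {p q : Q} (h : Reach M p q) (hq : Coacc M q) : Coacc M p := by
  obtain ⟨r, hr, h2⟩ := hq
  exact ⟨r, hr, h.trans M h2⟩

variable [Fintype A]

lemma main_claim {σ τ K0 : ℝ} (hσ : 1 ≤ σ) (hστ : σ ≤ τ) (hK0 : 1 ≤ K0)
    (H : ∀ (l : List (Frame A ar)) p, Acc M p → Coacc M p → (matL M l p p : ℝ) ≤ σ ^ sizeL l)
    (q : Q) (hq : Coacc M q)
    (IH : ∀ q', Reach M q' q → ¬ Reach M q q' → ∀ t : Tree A ar,
      (val M t q' : ℝ) ≤ K0 * τ ^ t.size) :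
    ∃ K1 : ℝ, 0 ≤ K1 ∧ ∀ t : Tree A ar, (val M t q : ℝ) ≤ t.size * (K1 * τ ^ t.size) := by
  classical
  have hτ : 1 ≤ τ := hσ.trans hστ
  set S : Finset Q := univ.filter fun p => Reach M p q ∧ Reach M q p with hS
  have hc : ∀ p, ∃ c : List (Frame A ar), p ∈ S → 0 < matL M c q p := by
    intro p
    by_cases hp : p ∈ S
    · obtain ⟨c, hc⟩ := (Finset.mem_filter.1 hp).2.2
      exact ⟨c, fun _ => hc⟩
    · exact ⟨[], fun h => absurd h hp⟩
  choose c hc using hc
  set e := ∑ p, sizeL (c p) with he
  have hctx : ∀ p ∈ S, Acc M p → ∀ l : List (Frame A ar),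
      (matL M l p q : ℝ) ≤ σ ^ (sizeL l + e) := by
    intro p hp hacc l
    have h1 := matL_append_ge M (c p) l p q p
    have h2 : matL M l p q ≤ matL M l p q * matL M (c p) q p :=
      Nat.le_mul_of_pos_right _ (hc p hp)
    have h3 := H (c p ++ l) p hacc (Coacc.of_reach M (Finset.mem_filter.1 hp).2.1 hq)
    calc (matL M l p q : ℝ) ≤ (matL M (c p ++ l) p p : ℝ) := by exact_mod_cast h2.trans h1
      _ ≤ σ ^ sizeL (c p ++ l) := h3
      _ ≤ σ ^ (sizeL l + e) := by
        apply pow_le_pow_right₀ hσ
        rw [sizeL_append]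
        have : sizeL (c p) ≤ e := Finset.single_le_sum (f := fun p => sizeL (c p))
          (fun _ _ => Nat.zero_le _) (Finset.mem_univ p)
        omega
  set B : ℝ := ∑ a : A, ∑ p : Q, ∑ qs : Fin (ar a) → Q, (M.mu a qs p : ℝ) * K0 ^ ar a with hB
  have hb : ∀ (a : A) (ts : Fin (ar a) → Tree A ar) (p : Q), p ∈ S →
      ((∑ qs : Fin (ar a) → Q, if ∀ k, qs k ∉ S then
        M.mu a qs p * ∏ i, val M (ts i) (qs i) else 0 : ℕ) : ℝ) ≤
      (∑ qs : Fin (ar a) → Q, (M.mu a qs p : ℝ) * K0 ^ ar a) * τ ^ (Tree.node a ts).size := by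
    intro a ts p hp
    rw [Nat.cast_sum, Finset.sum_mul]
    refine Finset.sum_le_sum fun qs _ => ?_
    have hpos : 0 ≤ (M.mu a qs p : ℝ) * K0 ^ ar a * τ ^ (Tree.node a ts).size := by positivity
    by_cases h : ∀ k, qs k ∉ S
    · rw [if_pos h]
      rcases Nat.eq_zero_or_pos (M.mu a qs p * ∏ i, val M (ts i) (qs i)) with h0 | h0
      · rw [h0, Nat.cast_zero]; exact hpos
      · push_cast
        rw [mul_assoc]
        refine mul_le_mul_of_nonneg_left ?_ (Nat.cast_nonneg _)
        have hk : ∀ k, (val M (ts k) (qs k) : ℝ) ≤ K0 * τ ^ (ts k).size := by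
          intro k
          have r1 : Reach M (qs k) p := reach_child M h0 k
          have r2 : Reach M (qs k) q := r1.trans M (Finset.mem_filter.1 hp).2.1
          refine IH (qs k) r2 (fun r3 => h k ?_) (ts k)
          exact Finset.mem_filter.2 ⟨Finset.mem_univ _, r2, r3⟩
        calc ∏ i, (val M (ts i) (qs i) : ℝ) ≤ ∏ i, (K0 * τ ^ (ts i).size) :=
              Finset.prod_le_prod (fun i _ => Nat.cast_nonneg _) (fun i _ => hk i)
          _ = K0 ^ ar a * τ ^ (∑ i, (ts i).size) := by
              rw [Finset.prod_mul_distrib, Finset.prod_const, Finset.card_univ, Fintype.card_fin,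
                Finset.prod_pow_eq_pow_sum]
          _ ≤ K0 ^ ar a * τ ^ (Tree.node a ts).size := by
              refine mul_le_mul_of_nonneg_left ?_ (by positivity)
              apply pow_le_pow_right₀ hτ
              simp [Tree.size]
    · rw [if_neg h, Nat.cast_zero]; exact hpos
  have key : ∀ (t : Tree A ar) (l : List (Frame A ar)),
      ((∑ p ∈ S, matL M l p q * val M t p : ℕ) : ℝ) ≤
        t.size * (σ ^ e * B * τ ^ (sizeL l + t.size)) := by
    intro t
    induction t with
    | node a ts ih =>
      intro l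
      have h1 : (∑ p ∈ S, matL M l p q * val M (.node a ts) p) ≤
          (∑ p ∈ S, matL M l p q * (∑ qs : Fin (ar a) → Q, if ∀ k, qs k ∉ S then
            M.mu a qs p * ∏ i, val M (ts i) (qs i) else 0)) +
          ∑ i, ∑ p' ∈ S, matL M (l ++ [⟨a, i, ts⟩]) p' q * val M (ts i) p' := by
        have h2 : (∑ p ∈ S, matL M l p q * val M (.node a ts) p) ≤
            ∑ p ∈ S, matL M l p q * ((∑ qs : Fin (ar a) → Q, if ∀ k, qs k ∉ S then
              M.mu a qs p * ∏ i, val M (ts i) (qs i) else 0) +
              ∑ i, ∑ p' ∈ S, Frame.mat M ⟨a, i, ts⟩ p' p * val M (ts i) p') :=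
          Finset.sum_le_sum fun p _ => Nat.mul_le_mul_left _ (step_bound M S a ts p)
        refine h2.trans ?_
        simp only [Nat.mul_add, Finset.sum_add_distrib]
        refine Nat.add_le_add_left ?_ _
        simp only [Finset.mul_sum]
        rw [Finset.sum_comm]
        refine Finset.sum_le_sum fun i _ => ?_
        rw [Finset.sum_comm]
        refine Finset.sum_le_sum fun p' _ => ?_
        have h3 : ∑ p ∈ S, matL M l p q * (Frame.mat M ⟨a, i, ts⟩ p' p * val M (ts i) p') =
            (∑ p ∈ S, Frame.mat M ⟨a, i, ts⟩ p' p * matL M l p q) * val M (ts i) p' := by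
          rw [Finset.sum_mul]
          exact Finset.sum_congr rfl fun p _ => by ring
        rw [h3]
        refine Nat.mul_le_mul_right _ ?_
        rw [matL_append, Matrix.mul_apply]
        simp only [matL, Matrix.one_mul]
        exact Finset.sum_le_sum_of_subset (Finset.subset_univ _)
      have h4 : ((∑ p ∈ S, matL M l p q * (∑ qs : Fin (ar a) → Q, if ∀ k, qs k ∉ S then
            M.mu a qs p * ∏ i, val M (ts i) (qs i) else 0) : ℕ) : ℝ) ≤
          σ ^ e * B * τ ^ (sizeL l + (Tree.node a ts).size) := by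
        push_cast
        have h5 : ∀ p ∈ S, (matL M l p q : ℝ) * ((∑ qs : Fin (ar a) → Q, if ∀ k, qs k ∉ S then
            M.mu a qs p * ∏ i, val M (ts i) (qs i) else 0 : ℕ) : ℝ) ≤
            σ ^ (sizeL l + e) * ((∑ qs : Fin (ar a) → Q, (M.mu a qs p : ℝ) * K0 ^ ar a) *
              τ ^ (Tree.node a ts).size) := by
          intro p hp
          rcases Nat.eq_zero_or_pos (∑ qs : Fin (ar a) → Q, if ∀ k, qs k ∉ S then
            M.mu a qs p * ∏ i, val M (ts i) (qs i) else 0) with h0 | h0
          · rw [h0, Nat.cast_zero, mul_zero]; positivity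
          · have hacc : Acc M p := by
              refine ⟨.node a ts, lt_of_lt_of_le h0 ?_⟩
              simp only [val]
              refine Finset.sum_le_sum fun qs _ => ?_
              split_ifs
              · exact le_rfl
              · exact Nat.zero_le _
            exact mul_le_mul (hctx p hp hacc l) (hb a ts p hp) (Nat.cast_nonneg _) (by positivity)
        have h6 := Finset.sum_le_sum h5
        push_cast at h6
        refine h6.trans ?_
        rw [← Finset.mul_sum, ← Finset.sum_mul]
        have h7 : ∑ p ∈ S, ∑ qs : Fin (ar a) → Q, (M.mu a qs p : ℝ) * K0 ^ ar a ≤ B := by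
          calc ∑ p ∈ S, ∑ qs : Fin (ar a) → Q, (M.mu a qs p : ℝ) * K0 ^ ar a
              ≤ ∑ p : Q, ∑ qs : Fin (ar a) → Q, (M.mu a qs p : ℝ) * K0 ^ ar a :=
                Finset.sum_le_sum_of_subset_of_nonneg (Finset.subset_univ _)
                  (fun _ _ _ => by positivity)
            _ ≤ B := Finset.single_le_sum (f := fun a => ∑ p : Q, ∑ qs : Fin (ar a) → Q,
                (M.mu a qs p : ℝ) * K0 ^ ar a) (fun _ _ => by positivity) (Finset.mem_univ a)
        calc σ ^ (sizeL l + e) * ((∑ p ∈ S, ∑ qs : Fin (ar a) → Q,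
              (M.mu a qs p : ℝ) * K0 ^ ar a) * τ ^ (Tree.node a ts).size)
            ≤ σ ^ (sizeL l + e) * (B * τ ^ (Tree.node a ts).size) := by gcongr
          _ = σ ^ e * B * (σ ^ sizeL l * τ ^ (Tree.node a ts).size) := by rw [pow_add]; ring
          _ ≤ σ ^ e * B * (τ ^ sizeL l * τ ^ (Tree.node a ts).size) := by
              have hB0 : 0 ≤ B := by positivity
              gcongr
          _ = σ ^ e * B * τ ^ (sizeL l + (Tree.node a ts).size) := by rw [pow_add]
      have h8 : ∀ i, ((∑ p' ∈ S, matL M (l ++ [⟨a, i, ts⟩]) p' q * val M (ts i) p' : ℕ) : ℝ) ≤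
          (ts i).size * (σ ^ e * B * τ ^ (sizeL l + (Tree.node a ts).size)) := by
        intro i
        have h9 : sizeL (l ++ [⟨a, i, ts⟩]) + (ts i).size = sizeL l + (Tree.node a ts).size := by
          rw [sizeL_append]
          simp only [sizeL, Frame.size, Tree.size]
          rw [← Finset.add_sum_erase univ (fun i => (ts i).size) (Finset.mem_univ i)]
          omega
        have := ih i (l ++ [⟨a, i, ts⟩])
        rwa [h9] at this
      refine (Nat.cast_le (α := ℝ).2 h1).trans ?_
      have h11 : ((∑ i, ∑ p' ∈ S, matL M (l ++ [⟨a, i, ts⟩]) p' q * val M (ts i) p' : ℕ) : ℝ) ≤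
          ∑ i, ((ts i).size * (σ ^ e * B * τ ^ (sizeL l + (Tree.node a ts).size)) : ℝ) := by
        rw [Nat.cast_sum]; exact Finset.sum_le_sum fun i _ => h8 i
      rw [Nat.cast_add]
      refine (add_le_add h4 h11).trans (le_of_eq ?_)
      rw [← Finset.sum_mul]
      simp only [Tree.size]
      push_cast
      ring
  refine ⟨σ ^ e * B, by positivity, fun t => ?_⟩
  have h1 := key t []
  simp only [sizeL, Nat.zero_add] at h1
  refine le_trans ?_ h1
  have hqS : q ∈ S := Finset.mem_filter.2 ⟨Finset.mem_univ _, Reach.refl M q, Reach.refl M q⟩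
  have h2 : matL M ([] : List (Frame A ar)) q q * val M t q ≤
      ∑ p ∈ S, matL M ([] : List (Frame A ar)) p q * val M t p :=
    Finset.single_le_sum (f := fun p => matL M ([] : List (Frame A ar)) p q * val M t p)
      (fun _ _ => Nat.zero_le _) hqS
  have h3 : matL M ([] : List (Frame A ar)) q q = 1 := by simp [matL]
  rw [h3, Nat.one_mul] at h2
  exact_mod_cast h2

lemma rk_pos (q : Q) : 0 < rk M q := by
  classical
  unfold rk
  exact Finset.card_pos.2 ⟨q, by simp [Reach.refl]⟩

lemma bound {σ : ℝ} (hσ : 1 ≤ σ)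
    (H : ∀ (l : List (Frame A ar)) p, Acc M p → Coacc M p → (matL M l p p : ℝ) ≤ σ ^ sizeL l) :
    ∀ n : ℕ, ∀ δ : ℝ, 0 < δ → ∃ K : ℝ, 1 ≤ K ∧ ∀ q, Coacc M q → rk M q < n →
      ∀ t : Tree A ar, (val M t q : ℝ) ≤ K * (σ * (1 + δ)) ^ t.size := by
  intro n
  induction n with
  | zero => exact fun δ _ => ⟨1, le_rfl, fun q _ h => absurd h (Nat.not_lt_zero _)⟩
  | succ n ih =>
    intro δ hδ
    set δ' := min 1 δ / 3 with hδ'
    have h1 : 0 < δ' := by positivity
    have h2 : δ' ≤ 1 / 3 := by
      have := min_le_left 1 δ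
      linarith
    have h3 : 3 * δ' ≤ δ := by
      have := min_le_right 1 δ
      linarith
    obtain ⟨K0, hK0, hK⟩ := ih δ' h1
    have h4 : ∀ q, ∃ K1 : ℝ, 0 ≤ K1 ∧ (Coacc M q → rk M q < n + 1 → ∀ t : Tree A ar,
        (val M t q : ℝ) ≤ t.size * (K1 * (σ * (1 + δ')) ^ t.size)) := by
      intro q
      by_cases hq : Coacc M q ∧ rk M q < n + 1
      · obtain ⟨K1, hK1, h5⟩ := main_claim M (K0 := K0) (τ := σ * (1 + δ')) hσ
          (by nlinarith) hK0 H q hq.1 (fun q' hr hnr t =>
            hK q' (Coacc.of_reach M hr hq.1) (by have := rk_lt M hr hnr; omega) t)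
        exact ⟨K1, hK1, fun _ _ => h5⟩
      · exact ⟨0, le_rfl, fun ha hb => absurd ⟨ha, hb⟩ hq⟩
    choose K1 hK1 h5 using h4
    refine ⟨1 + ∑ q, K1 q / δ', ?_, ?_⟩
    · have : 0 ≤ ∑ q, K1 q / δ' := Finset.sum_nonneg fun q _ => div_nonneg (hK1 q) h1.le
      linarith
    · intro q hq hrk t
      refine (h5 q hq hrk t).trans ?_
      have h6 : (t.size : ℝ) ≤ (1 / δ') * (1 + δ') ^ t.size := by
        have h7 := one_add_mul_le_pow (a := δ') (by linarith) t.size
        rw [div_mul_eq_mul_div, one_mul, le_div_iff₀ h1]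
        linarith
      have h8 : K1 q / δ' ≤ 1 + ∑ q, K1 q / δ' := by
        have := Finset.single_le_sum (f := fun q => K1 q / δ')
          (fun q _ => div_nonneg (hK1 q) h1.le) (Finset.mem_univ q)
        linarith
      calc (t.size : ℝ) * (K1 q * (σ * (1 + δ')) ^ t.size)
          ≤ ((1 / δ') * (1 + δ') ^ t.size) * (K1 q * (σ * (1 + δ')) ^ t.size) := by
            have := hK1 q
            gcongr
        _ = K1 q / δ' * (σ * ((1 + δ') * (1 + δ'))) ^ t.size := by
            rw [mul_pow, mul_pow, mul_pow]; ring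
        _ ≤ (1 + ∑ q, K1 q / δ') * (σ * (1 + δ)) ^ t.size := by
            have h9 : (1 + δ') * (1 + δ') ≤ 1 + δ := by nlinarith
            have h10 : 0 ≤ K1 q / δ' := div_nonneg (hK1 q) h1.le
            gcongr
            exact h10.trans h8

/-- A crude bound. -/
lemma crude : ∃ B : ℕ, 1 ≤ B ∧ ∀ (t : Tree A ar) q, val M t q ≤ B ^ t.size := by
  refine ⟨1 + ∑ a : A, ∑ p : Q, ∑ qs : Fin (ar a) → Q, M.mu a qs p, by omega, fun t => ?_⟩
  induction t with
  | node a ts ih =>
    intro q
    simp only [val, Tree.size]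
    set B := 1 + ∑ a : A, ∑ p : Q, ∑ qs : Fin (ar a) → Q, M.mu a qs p with hB
    have h1 : ∀ qs : Fin (ar a) → Q, M.mu a qs q * ∏ i, val M (ts i) (qs i) ≤
        M.mu a qs q * B ^ ∑ i, (ts i).size := by
      intro qs
      refine Nat.mul_le_mul_left _ ?_
      rw [← Finset.prod_pow_eq_pow_sum]
      exact Finset.prod_le_prod' fun i _ => ih i (qs i)
    refine (Finset.sum_le_sum fun qs _ => h1 qs).trans ?_
    rw [← Finset.sum_mul, pow_add, pow_one]
    refine Nat.mul_le_mul_right _ ?_
    have h2 : ∑ qs : Fin (ar a) → Q, M.mu a qs q ≤ ∑ p : Q, ∑ qs : Fin (ar a) → Q, M.mu a qs p :=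
      Finset.single_le_sum (f := fun p => ∑ qs : Fin (ar a) → Q, M.mu a qs p)
        (fun _ _ => Nat.zero_le _) (Finset.mem_univ q)
    have h3 : ∑ p : Q, ∑ qs : Fin (ar a) → Q, M.mu a qs p ≤
        ∑ a : A, ∑ p : Q, ∑ qs : Fin (ar a) → Q, M.mu a qs p :=
      Finset.single_le_sum (f := fun a => ∑ p : Q, ∑ qs : Fin (ar a) → Q, M.mu a qs p)
        (fun _ _ => Nat.zero_le _) (Finset.mem_univ a)
    omega

lemma value_eq (t : Tree A ar) : value M t = ∑ q, val M t q * M.lam q := val_eq M t M.lam

lemma value_le_growth (t : Tree A ar) {n : ℕ} (hn : t.size ≤ n) :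
    value M t ≤ growth (value M) n := by
  refine le_csSup ?_ ⟨t, hn, rfl⟩
  obtain ⟨B, hB, h⟩ := crude M (A := A) (ar := ar)
  refine ⟨∑ q, B ^ n * M.lam q, ?_⟩
  rintro _ ⟨t, ht, rfl⟩
  rw [value_eq]
  exact Finset.sum_le_sum fun q _ => Nat.mul_le_mul_right _
    ((h t q).trans (Nat.pow_le_pow_right hB ht))

lemma growth_le {f : Tree A ar → ℕ} {n : ℕ} {b : ℝ} (hb : 0 ≤ b)
    (h : ∀ t : Tree A ar, t.size ≤ n → (f t : ℝ) ≤ b) : (growth f n : ℝ) ≤ b := by
  unfold growth
  rcases Set.eq_empty_or_nonempty {m | ∃ t : Tree A ar, t.size ≤ n ∧ f t = m} with h1 | h1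
  · rw [h1]; simpa using hb
  · by_cases h2 : BddAbove {m | ∃ t : Tree A ar, t.size ≤ n ∧ f t = m}
    · obtain ⟨t, ht, h3⟩ := Nat.sSup_mem h1 h2
      rw [← h3]; exact h t ht
    · rw [Nat.sSup_of_not_bddAbove h2]; simpa using hb

/-- Iterated contexts. -/
def pw (l : List (Frame A ar)) : ℕ → List (Frame A ar)
  | 0 => []
  | m + 1 => l ++ pw l m

lemma sizeL_pw (l : List (Frame A ar)) (m : ℕ) : sizeL (pw l m) = m * sizeL l := by
  induction m with
  | zero => simp [pw, sizeL]
  | succ m ih => rw [pw, sizeL_append, ih]; ring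

lemma matL_pw (l : List (Frame A ar)) (p : Q) (m : ℕ) :
    (matL M l p p) ^ m ≤ matL M (pw l m) p p := by
  induction m with
  | zero => simp [pw, matL]
  | succ m ih =>
    rw [pw, pow_succ]
    exact (Nat.mul_le_mul_right _ ih).trans (matL_append_ge M l (pw l m) p p p)

lemma pump {p : Q} (h1 : Acc M p) (h2 : Coacc M p) (l : List (Frame A ar)) :
    ∃ c : ℕ, ∀ m n : ℕ, c + m * sizeL l ≤ n → (matL M l p p) ^ m ≤ growth (value M) n := by
  obtain ⟨t0, h0⟩ := h1
  obtain ⟨qf, hf, E, hE⟩ := h2
  refine ⟨sizeL E + t0.size, fun m n hn => ?_⟩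
  refine le_trans ?_ (value_le_growth M (plugL (E ++ pw l m) t0) (n := n) ?_)
  · rw [value_eq]
    have h3 : val M (plugL (E ++ pw l m) t0) qf * M.lam qf ≤
        ∑ q, val M (plugL (E ++ pw l m) t0) q * M.lam q :=
      Finset.single_le_sum (f := fun q => val M (plugL (E ++ pw l m) t0) q * M.lam q)
        (fun _ _ => Nat.zero_le _) (Finset.mem_univ qf)
    refine le_trans ?_ h3
    refine le_trans ?_ (Nat.le_mul_of_pos_right _ hf)
    rw [val_plugL]
    have h4 : matL M (E ++ pw l m) p qf * val M t0 p ≤
        ∑ p, matL M (E ++ pw l m) p qf * val M t0 p :=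
      Finset.single_le_sum (f := fun p => matL M (E ++ pw l m) p qf * val M t0 p)
        (fun _ _ => Nat.zero_le _) (Finset.mem_univ p)
    refine le_trans ?_ h4
    refine le_trans ?_ (Nat.le_mul_of_pos_right _ h0)
    refine le_trans ?_ (matL_append_ge M E (pw l m) p p qf)
    exact (matL_pw M l p m).trans (Nat.le_mul_of_pos_right _ hE)
  · rw [size_plugL, sizeL_append, sizeL_pw]
    omega

/-- The convergence of `log (growth n) / n`, provided that the growth function is eventually
positive. -/
lemma converge (h0 : ∀ᶠ n : ℕ in atTop, 1 ≤ growth (value M) n) :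
    ∃ L : ℝ, Tendsto (fun n : ℕ => Real.log (growth (value M) n) / n) atTop (𝓝 L) := by
  classical
  obtain ⟨B, hB, hcrude⟩ := crude M
  -- accessible trees
  have ht : ∀ p, ∃ t : Tree A ar, Acc M p → 0 < val M t p := by
    intro p
    by_cases hp : Acc M p
    · obtain ⟨t, ht⟩ := hp; exact ⟨t, fun _ => ht⟩
    · by_cases hT : Nonempty (Tree A ar)
      · exact ⟨hT.some, fun h => absurd h hp⟩
      · exfalso
        obtain ⟨n, hn⟩ := h0.exists
        have : growth (value M) n = 0 := by
          unfold growth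
          have : {m | ∃ t : Tree A ar, t.size ≤ n ∧ value M t = m} = ∅ := by
            apply Set.eq_empty_of_forall_notMem
            rintro m ⟨t, _⟩; exact hT ⟨t⟩
          rw [this]; simp
        omega
  choose T hT using ht
  set N := ∑ p, (T p).size with hN
  set S : Set ℝ := insert 0 {x | ∃ (l : List (Frame A ar)) (p : Q), Acc M p ∧ Coacc M p ∧
    1 ≤ matL M l p p ∧ 1 ≤ sizeL l ∧ x = Real.log (matL M l p p) / sizeL l} with hS
  have hBlog : 0 ≤ Real.log B := Real.log_nonneg (by exact_mod_cast hB)
  have hbdd : BddAbove S := by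
    refine ⟨(1 + N) * Real.log B, ?_⟩
    rintro x (rfl | ⟨l, p, hacc, hco, h1, h2, rfl⟩)
    · positivity
    · have h3 : matL M l p p ≤ B ^ (sizeL l + N) := by
        have h4 : matL M l p p * val M (T p) p ≤ val M (plugL l (T p)) p := by
          rw [val_plugL]
          exact Finset.single_le_sum (f := fun j => matL M l j p * val M (T p) j)
            (fun _ _ => Nat.zero_le _) (Finset.mem_univ p)
        have h5 := hcrude (plugL l (T p)) p
        have h6 : (T p).size ≤ N := Finset.single_le_sum (f := fun p => (T p).size)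
          (fun _ _ => Nat.zero_le _) (Finset.mem_univ p)
        calc matL M l p p ≤ matL M l p p * val M (T p) p :=
              Nat.le_mul_of_pos_right _ (hT p hacc)
          _ ≤ B ^ (plugL l (T p)).size := h4.trans h5
          _ ≤ B ^ (sizeL l + N) := by
            apply Nat.pow_le_pow_right hB
            rw [size_plugL]; omega
      have h7 : Real.log (matL M l p p) ≤ (sizeL l + N) * Real.log B := by
        have h8 : (matL M l p p : ℝ) ≤ (B : ℝ) ^ (sizeL l + N) := by exact_mod_cast h3
        have h9 := Real.log_le_log (by exact_mod_cast h1) h8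
        rw [Real.log_pow] at h9
        push_cast at h9; exact h9
      have h10 : (1 : ℝ) ≤ sizeL l := by exact_mod_cast h2
      rw [div_le_iff₀ (by linarith)]
      refine h7.trans ?_
      have h11 : ((sizeL l : ℝ) + N) ≤ (1 + N) * sizeL l := by
        have : (N : ℝ) ≤ N * sizeL l := by
          have : (0 : ℝ) ≤ N := Nat.cast_nonneg _
          nlinarith
        linarith
      calc ((sizeL l : ℝ) + N) * Real.log B ≤ ((1 + N) * sizeL l) * Real.log B :=
            mul_le_mul_of_nonneg_right h11 hBlog
        _ = (1 + N) * Real.log B * sizeL l := by ring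
  have hne : S.Nonempty := ⟨0, Set.mem_insert _ _⟩
  set L := sSup S with hL
  have hL0 : 0 ≤ L := le_csSup hbdd (Set.mem_insert _ _)
  have hsizepos : ∀ l : List (Frame A ar), l ≠ [] → 1 ≤ sizeL l := by
    intro l hl
    rcases l with _ | ⟨F, l⟩
    · exact absurd rfl hl
    · simp only [sizeL, Frame.size]; omega
  have H : ∀ (l : List (Frame A ar)) p, Acc M p → Coacc M p →
      (matL M l p p : ℝ) ≤ (Real.exp L) ^ sizeL l := by
    intro l p hacc hco
    rcases Nat.eq_zero_or_pos (matL M l p p) with h1 | h1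
    · rw [h1, Nat.cast_zero]; positivity
    · by_cases hl : l = []
      · subst hl; simp [matL, sizeL]
      · have h2 := hsizepos l hl
        have h3 : Real.log (matL M l p p) / sizeL l ≤ L :=
          le_csSup hbdd (Set.mem_insert_of_mem _ ⟨l, p, hacc, hco, h1, h2, rfl⟩)
        have h4 : (0 : ℝ) < sizeL l := by exact_mod_cast h2
        rw [div_le_iff₀ h4] at h3
        have h5 : (0 : ℝ) < matL M l p p := by exact_mod_cast h1
        rw [← Real.exp_log h5, ← Real.exp_nat_mul]
        apply Real.exp_le_exp.2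
        linarith
  refine ⟨L, ?_⟩
  rw [tendsto_order]
  constructor
  · intro a ha
    obtain ⟨x, hx, hax⟩ := exists_lt_of_lt_csSup hne ha
    rcases hx with rfl | ⟨l, p, hacc, hco, h1, h2, rfl⟩
    · filter_upwards [h0] with n hn
      refine lt_of_lt_of_le hax (div_nonneg (Real.log_nonneg (by exact_mod_cast hn))
        (Nat.cast_nonneg _))
    · obtain ⟨c, hc⟩ := pump M hacc hco l
      set w := matL M l p p with hw
      set s := sizeL l with hs
      have hs0 : (0 : ℝ) < s := by exact_mod_cast h2
      have hw0 : 0 ≤ Real.log w := Real.log_nonneg (by exact_mod_cast h1)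
      have h3 : Tendsto (fun n : ℕ => Real.log w / s - ((c + s) * (Real.log w / s)) / n) atTop
          (𝓝 (Real.log w / s - 0)) :=
        tendsto_const_nhds.sub (tendsto_const_div_atTop_nhds_zero_nat _)
      rw [sub_zero] at h3
      filter_upwards [h3.eventually (eventually_gt_nhds hax), eventually_ge_atTop (c + 1)]
        with n hn hcn
      refine lt_of_lt_of_le hn ?_
      have hn0 : (0 : ℝ) < n := by
        have : 0 < n := by omega
        exact_mod_cast this
      rw [le_div_iff₀ hn0]
      have h4 : c + ((n - c) / s) * s ≤ n := by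
        have := Nat.div_mul_le_self (n - c) s
        omega
      have h5 : n ≤ c + ((n - c) / s) * s + s := by
        have h6 := Nat.div_add_mod (n - c) s
        have h7 := Nat.mod_lt (n - c) (show 0 < s by omega)
        rw [Nat.mul_comm] at h6
        omega
      have h6 := hc _ n h4
      set m := (n - c) / s with hm
      have h7 : (w : ℝ) ^ m ≤ growth (value M) n := by exact_mod_cast h6
      have h8 : (0 : ℝ) < w := by exact_mod_cast h1
      have h9 := Real.log_le_log (by positivity) h7
      rw [Real.log_pow] at h9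
      refine le_trans ?_ h9
      have h10 : (n : ℝ) ≤ c + m * s + s := by exact_mod_cast h5
      have h11 : (Real.log w / s - ((c + s) * (Real.log w / s)) / n) * n =
          (Real.log w / s) * (n - c - s) := by field_simp; ring
      have h12 : (m : ℝ) * Real.log w = (Real.log w / s) * (m * s) := by field_simp
      rw [h11, h12]
      exact mul_le_mul_of_nonneg_left (by linarith) (div_nonneg hw0 hs0.le)
  · intro a ha
    set δ := (a - L) / 2 with hδ
    have hδ0 : 0 < δ := by linarith
    obtain ⟨K, hK1, hK⟩ := bound M (Real.one_le_exp hL0) H (Fintype.card Q + 1) δ hδ0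
    set C : ℝ := 1 + ∑ q, K * M.lam q with hC
    have hC0 : 0 < C := by positivity
    set τ := Real.exp L * (1 + δ) with hτ
    have hτ1 : 1 ≤ τ := by
      have := Real.one_le_exp hL0
      nlinarith
    have hg : ∀ n, (growth (value M) n : ℝ) ≤ C * τ ^ n := by
      intro n
      refine growth_le (by positivity) fun t ht => ?_
      rw [value_eq]
      push_cast
      have h1 : ∀ q, (val M t q : ℝ) * M.lam q ≤ (K * M.lam q) * τ ^ n := by
        intro q
        rcases Nat.eq_zero_or_pos (M.lam q) with h2 | h2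
        · rw [h2]; simp
        · have h3 := hK q ⟨q, h2, Reach.refl M q⟩ (by
            unfold rk
            exact Nat.lt_succ_of_le (Finset.card_le_univ _)) t
          have h4 : τ ^ t.size ≤ τ ^ n := pow_le_pow_right₀ hτ1 ht
          calc (val M t q : ℝ) * M.lam q ≤ (K * τ ^ n) * M.lam q := by
                refine mul_le_mul_of_nonneg_right (h3.trans ?_) (Nat.cast_nonneg _)
                exact mul_le_mul_of_nonneg_left h4 (by linarith)
            _ = (K * M.lam q) * τ ^ n := by ring
      calc ∑ q, (val M t q : ℝ) * M.lam q ≤ ∑ q, (K * M.lam q) * τ ^ n :=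
            Finset.sum_le_sum fun q _ => h1 q
        _ = (∑ q, K * M.lam q) * τ ^ n := by rw [Finset.sum_mul]
        _ ≤ C * τ ^ n := by
            refine mul_le_mul_of_nonneg_right ?_ (by positivity)
            linarith
    have h3 : Tendsto (fun n : ℕ => Real.log C / n + (L + δ)) atTop (𝓝 (0 + (L + δ))) :=
      (tendsto_const_div_atTop_nhds_zero_nat _).add tendsto_const_nhds
    have h4 : 0 + (L + δ) < a := by linarith
    filter_upwards [h3.eventually (eventually_lt_nhds h4), eventually_ge_atTop 1, h0]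
      with n hn hn1 hpos
    refine lt_of_le_of_lt ?_ hn
    have hn0 : (0 : ℝ) < n := by exact_mod_cast hn1
    rw [div_le_iff₀ hn0]
    have h5 : (0 : ℝ) < growth (value M) n := by exact_mod_cast hpos
    have h6 := Real.log_le_log h5 (hg n)
    rw [Real.log_mul hC0.ne' (by positivity), Real.log_pow, hτ,
      Real.log_mul (Real.exp_pos L).ne' (by positivity), Real.log_exp] at h6
    have h7 : Real.log (1 + δ) ≤ δ := by
      have := Real.log_le_sub_one_of_pos (show 0 < 1 + δ by linarith)
      linarith
    have h8 : (Real.log C / n + (L + δ)) * n = Real.log C + n * (L + δ) := by field_simp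
    rw [h8]
    nlinarith

/-- Exponential growth: `2^(c₁ n) ≤ growth n ≤ 2^(c₂ n)` for all large `n`. -/
def ExpGrowth (f : Tree A ar → ℕ) : Prop :=
  ∃ c₁ c₂ : ℝ, 0 < c₁ ∧ 0 < c₂ ∧ ∀ᶠ n : ℕ in atTop,
    (2 : ℝ) ^ (c₁ * n) ≤ growth f n ∧ (growth f n : ℝ) ≤ (2 : ℝ) ^ (c₂ * n)


end

/-- **Main theorem.** The growth function of every `ℕ`-weighted tree automaton with exponential
growth has an exact exponential growth rate `ρ > 1`. -/
theorem result (A : Type) [Fintype A] (ar : A → ℕ) (Q : Type) [Fintype Q] (M : Aut A ar Q)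
    (h : ExpGrowth (value M)) :
    ∃ ρ : ℝ, 1 < ρ ∧
      Tendsto (fun n : ℕ => Real.log (growth (value M) n) / n) atTop (𝓝 (Real.log ρ)) ∧
      Tendsto (fun n : ℕ => (growth (value M) n : ℝ) ^ ((1 : ℝ) / n)) atTop (𝓝 ρ) := by
  classical
  obtain ⟨c₁, c₂, h1, h2, h3⟩ := h
  have h4 : ∀ᶠ n : ℕ in atTop, 1 ≤ growth (value M) n := by
    filter_upwards [h3] with n hn
    have h5 : (0 : ℝ) < growth (value M) n := lt_of_lt_of_le (by positivity) hn.1
    exact_mod_cast h5
  obtain ⟨L, hL⟩ := converge M h4
  have h5 : c₁ * Real.log 2 ≤ L := by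
    refine ge_of_tendsto hL ?_
    filter_upwards [h3, eventually_ge_atTop 1] with n hn hn1
    have hn0 : (0 : ℝ) < n := by exact_mod_cast hn1
    rw [le_div_iff₀ hn0]
    have h6 := Real.log_le_log (by positivity) hn.1
    rw [Real.log_rpow (by norm_num)] at h6
    linarith
  have h6 : 0 < L := lt_of_lt_of_le (mul_pos h1 (Real.log_pos (by norm_num))) h5
  refine ⟨Real.exp L, Real.one_lt_exp_iff.2 h6, by rwa [Real.log_exp], ?_⟩
  have h7 : Tendsto (fun n : ℕ => Real.exp (Real.log (growth (value M) n) / n)) atTop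
      (𝓝 (Real.exp L)) := (Real.continuous_exp.tendsto L).comp hL
  refine h7.congr' ?_
  filter_upwards [h4] with n hn
  have h8 : (0 : ℝ) < growth (value M) n := by exact_mod_cast hn
  rw [Real.rpow_def_of_pos h8]
  congr 1
  ring

end Pool.Agent.Results.MP_7772c6_lc.GrowthRate
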